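import Pool.Agent.Q225.GH.Fin0
import Pool.Agent.Q210.GH.NOCERT
import Pool.Agent.Q247.GH.CERT
import Pool.Agent.Q254.GH.LOC
import Pool.Agent.Q162.GH.GLOB
import Pool.Agent.Q184.GH.SELF
import Pool.Agent.Q211.GH.CARD
import Pool.Agent.Q231.GH.POS
import Pool.Agent.Q76.GH.NEXT
import Pool.Agent.Q103.GH.FORMF
import Pool.Agent.Q44.GH.CYCF
import Pool.Agent.Q124.GH.KER
import Pool.Agent.Q58.GH.DIMC
import Pool.Agent.Q224.GH.RANK
import Pool.Agent.Q224.GH.BIL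
import Pool.Agent.Q26.GH.ORTH
import Pool.Agent.Q124.GH.SWAP
import Pool.Agent.Q124.GH.KPAIR
import Pool.Agent.Q25.GH.CORE
import Pool.Agent.Q154.GH.MAIN
import Pool.Agent.Q285.GH.K33

set_option autoImplicit false

/-! # The assembly -/

namespace Pool.Agent.Q225.GH

open Pool.Agent.TH658.Dg Pool.Agent.H521R3.BI Pool.Agent.Q210.SP Pool.Agent.W185.SRG

theorem t_CORE' : S_CORE :=
  Pool.Agent.Q25.GH.CORE.t_CORE Pool.Agent.Q231.GH.POS.pos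
    (Pool.Agent.Q285.GH.t_K33
      (Pool.Agent.Q124.GH.t_KPAIR Pool.Agent.Q26.GH.t_ORTH Pool.Agent.Q124.GH.t_SWAP)
      Pool.Agent.Q224.GH.t_BIL)
    Pool.Agent.Q26.GH.t_ORTH
    (Pool.Agent.Q224.GH.t_RANK (Pool.Agent.Q103.GH.t_FORMF Pool.Agent.Q76.GH.t_NEXT)
      Pool.Agent.Q44.GH.t_CYCF Pool.Agent.Q124.GH.t_KER Pool.Agent.Q58.GH.t_DIMC)

theorem all (n : ℕ) (hn : 160000000 ≤ n) :
    ∃ G H : SimpleGraph (Fin n), ¬ Nonempty (G ≃g H) ∧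
      (∀ v, Nat.card (G.neighborSet v) ≤ 296 ∧ Nat.card (H.neighborSet v) ≤ 296) ∧
      (∀ j : ℕ, 20000000 * j ≤ n → WLEquivalent j G H) ∧
      (∀ (W : Type) [Fintype W] (F : SimpleGraph W) (r : ℕ), 321 * r ≤ n →
        (¬ ∃ B : Fin r → Set W, (∀ i j, i ≠ j → Disjoint (B i) (B j)) ∧
          ∀ i, ¬ Planar (F.induce (B i))) → Nat.card (F →g G) = Nat.card (F →g H)) ∧
      ∀ (W : Type) [Fintype W] (F : SimpleGraph W) (A : Set W) (V : Type) [Fintype V]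
        (L : SimpleGraph V) (g : ℕ), GenusLE L g → (F.induce Aᶜ).IsContained L →
        321 * (A.ncard + 2 * g) ≤ n → Nat.card (F →g G) = Nat.card (F →g H) :=
  main_of Pool.Agent.Q210.GH.t_NOCERT Pool.Agent.Q247.GH.t_CERT Pool.Agent.Q184.GH.t_SELF
    Pool.Agent.Q211.GH.t_CARD
    (Pool.Agent.Q154.GH.t_MAIN t_CORE' Pool.Agent.Q254.GH.loc Pool.Agent.Q162.GH.t_GLOB)
    t_CORE' Pool.Agent.Q254.GH.loc Pool.Agent.Q162.GH.t_GLOB n hn

end Pool.Agent.Q225.GH
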