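import Pool.Agent.Q225.GH.Stm

set_option autoImplicit false

/-! # The degrees of the two graphs -/

namespace Pool.Agent.Q225.GH

open Finset Pool.Agent.TH658.Dg Pool.Agent.Q210.SP Pool.Agent.H521R3.BI

/-- Codes of neighbours. -/
abbrev Cd : Type := (Pt → ZMod 2) ⊕ (Pt × ZMod 2) ⊕ (Fin 3 × (Fin 3 → ZMod 2))

/-- The code of a vertex. -/
def code {m p : ℕ} : (Σ u : Nd m p, ((MB m p).I u → ZMod 2)) → Cd
  | ⟨Nd.q _, s⟩ => Sum.inl s
  | ⟨Nd.d e b, s⟩ => Sum.inr (Sum.inl (if b then Sum.inl e.1 else Sum.inr e.1, s ()))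
  | ⟨Nd.r _ x, s⟩ => Sum.inr (Sum.inr (x, s))
  | ⟨Nd.c _ y, s⟩ => Sum.inr (Sum.inr (y, s))
  | ⟨Nd.z _, _⟩ => Sum.inl 0

theorem port_d {m : ℕ} {e e' : ME m} {b b' : Bool} (v : MQ m)
    (h : (if b then Sum.inl e.1 else Sum.inr e.1 : Pt) = if b' then Sum.inl e'.1 else Sum.inr e'.1)
    (h1 : if b then mtgt m e = v else msrc m e = v)
    (h2 : if b' then mtgt m e' = v else msrc m e' = v) : e = e' ∧ b = b' := by
  obtain ⟨k, a⟩ := e
  obtain ⟨k', a'⟩ := e'
  cases b <;> cases b'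
  · simp only [Bool.false_eq_true, if_false, Sum.inr.injEq] at h h1 h2
    refine ⟨Prod.ext h ?_, rfl⟩
    exact h1.trans h2.symm
  · simp at h
  · simp at h
  · simp only [if_true, Sum.inl.injEq] at h h1 h2
    subst h
    have : a = a' := (sg m k).injective (h1.trans h2.symm)
    exact ⟨by rw [this], rfl⟩

theorem code_inj {m p : ℕ} (u : Nd m p) :
    ∀ y z : (Σ u : Nd m p, ((MB m p).I u → ZMod 2)), (MB m p).G.Adj u y.1 → (MB m p).G.Adj u z.1 →
      code y = code z → y = z := by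
  rintro ⟨y, s⟩ ⟨z, s'⟩ hy hz h
  rcases y with v₁ | ⟨e₁, c₁⟩ | ⟨v₁, x₁⟩ | ⟨v₁, x₁⟩ | i₁ <;>
  rcases z with v₂ | ⟨e₂, c₂⟩ | ⟨v₂, x₂⟩ | ⟨v₂, x₂⟩ | i₂ <;>
  simp only [code, Sum.inl.injEq, Sum.inr.injEq, Prod.mk.injEq, reduceCtorEq] at h
  all_goals rcases hy with hy | hy
  all_goals rcases hz with hz | hz
  all_goals rcases u with v | ⟨e, c⟩ | ⟨v, x⟩ | ⟨v, x⟩ | i
  all_goals first
    | exact hy.elim
    | exact hz.elim
    | skip
  case q.q.inr.inr.d =>
    have h1 : v₁ = v₂ := by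
      cases c
      · exact (Eq.symm hy).trans hz
      · exact (Eq.symm hy).trans hz
    subst h1
    exact congrArg _ h
  case q.q.inr.inr.r =>
    have h1 : v₁ = v₂ := hy.1.trans hz.1.symm
    subst h1
    exact congrArg _ h
  case d.d.inl.inl.q =>
    obtain ⟨h1, h2⟩ := port_d v h.1 hy hz
    subst h1 h2
    refine congrArg _ (funext fun i => ?_)
    exact h.2
  case d.d.inl.inl.d =>
    obtain ⟨rfl, h1, h2⟩ := hy
    obtain ⟨rfl, h3, h4⟩ := hz
    subst h2 h4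
    refine congrArg _ (funext fun i => ?_)
    exact h.2
  case d.d.inl.inr.d =>
    obtain ⟨_, h1, h2⟩ := hy
    obtain ⟨_, h3, h4⟩ := hz
    exact absurd (h1.symm.trans h4) Bool.false_ne_true
  case d.d.inr.inl.d =>
    obtain ⟨_, h1, h2⟩ := hy
    obtain ⟨_, h3, h4⟩ := hz
    exact absurd (h3.symm.trans h2) Bool.false_ne_true
  case d.d.inr.inr.d =>
    obtain ⟨h0, h1, h2⟩ := hy
    obtain ⟨h5, h3, h4⟩ := hz
    have h6 : e₁ = e₂ := h0.trans h5.symm
    subst h6 h1 h3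
    refine congrArg _ (funext fun i => ?_)
    exact h.2
  case r.r.inl.inl.q =>
    have h1 : v₁ = v₂ := hy.1.symm.trans hz.1
    subst h1
    obtain ⟨h2, h3⟩ := h
    subst h2
    exact congrArg _ h3
  case r.r.inr.inr.c =>
    have h1 : v₁ = v₂ := Eq.trans hy (Eq.symm hz)
    subst h1
    obtain ⟨h2, h3⟩ := h
    subst h2
    exact congrArg _ h3
  case c.c.inl.inl.r =>
    have h1 : v₁ = v₂ := Eq.trans (Eq.symm hy) hz
    subst h1
    obtain ⟨h2, h3⟩ := h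
    subst h2
    exact congrArg _ h3

theorem deg_le (m p : ℕ) [NeZero m] (b : MQ m → ZMod 2)
    (x : Σ u : Nd m p, ((MB m p).I u → ZMod 2)) : Nat.card ((gr m p b).neighborSet x) ≤ 296 := by
  have h : Nat.card ((gr m p b).neighborSet x) ≤ Nat.card Cd := by
    refine Nat.card_le_card_of_injective (fun y : (gr m p b).neighborSet x => code y.1) ?_
    intro y z h
    exact Subtype.ext (code_inj x.1 y.1 z.1 y.2.1 z.2.1 h)
  refine h.trans ?_
  rw [Nat.card_eq_fintype_card]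
  simp [Cd, Pt]

end Pool.Agent.Q225.GH
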