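import Pool.Agent.Q154.GH.MAIN

set_option autoImplicit false

/-! # A certificate gives many disjoint nonplanar subgraphs -/

namespace Pool.Agent.Q225.GH

open Finset Pool.Agent.TH658.Dg Pool.Agent.Q210.SP
open Pool.Agent.Q154.GH (pre pre_some cl cl_inl cl_inr cls wt par cls_some wt_apply par_apply key adj_rc)

/-- The set of vertices over one of the complete bipartite graphs. -/
def Bset {m p : ℕ} {W : Type} (φ : W → Nd m p) (v : MQ m) : Set W :=
  {a | ∃ k, φ a = Nd.r v k ∨ φ a = Nd.c v k}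

theorem Bset_disj {m p : ℕ} {W : Type} (φ : W → Nd m p) {v w : MQ m} (h : v ≠ w) :
    Disjoint (Bset φ v) (Bset φ w) := by
  rw [Set.disjoint_left]
  rintro a ⟨k, hk⟩ ⟨l, hl⟩
  rcases hk with hk | hk <;> rcases hl with hl | hl <;> rw [hk] at hl <;> cases hl <;> exact h rfl

theorem core_card (hcore : S_CORE) (hloc : S_LOC) (hglob : S_GLOB) (m p : ℕ) [NeZero m]
    (b : MQ m → ZMod 2) (W : Type) [Fintype W] [DecidableEq W] (F : SimpleGraph W) (A : Set W)
    (V : Type) [Fintype V] [DecidableEq V] (H : SimpleGraph V) (g : ℕ) (hg : GenusLE H g)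
    (hcont : (F.induce Aᶜ).IsContained H) (φ : W → Nd m p) (t : W → W → ZMod 2)
    (hc : Cert (MB m p) (tw b) F φ t) (P : MQ m → Prop)
    (hP : ∀ v, P v → ∀ a ∈ A, ∀ k, φ a ≠ Nd.r v k ∧ φ a ≠ Nd.c v k) [Fintype {v : MQ m // P v}] :
    Fintype.card {v : MQ m // P v} ≤ 2 * g := by
  classical
  obtain ⟨S, hS⟩ := hloc m p b W F φ t hc
  have hgl := hglob m p b W F φ t hc S hS
  obtain ⟨f0⟩ := hcont
  let f : ↥(Aᶜ) → V := fun a => f0.toHom a
  have hf : Function.Injective f := f0.injective'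
  refine hcore V H g hg {v : MQ m // P v} (cls P φ f) (Pool.Agent.Q154.GH.wt t f) (par S f) ?_ ?_ ?_ ?_ ?_
  · intro v w
    unfold Pool.Agent.Q154.GH.wt
    rcases pre f v with _ | a <;> rcases pre f w with _ | a'
    · rfl
    · rfl
    · rfl
    · exact hc.symm _ _
  · intro v w hvw
    unfold Pool.Agent.Q154.GH.wt at hvw
    rcases hv : pre f v with _ | a
    · rw [hv] at hvw
      exact absurd rfl hvw
    rcases hw : pre f w with _ | a'
    · rw [hv, hw] at hvw
      exact absurd rfl hvw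
    rw [hv, hw] at hvw
    have h1 : F.Adj a.1 a'.1 := hc.supp _ _ hvw
    have h2 : (F.induce Aᶜ).Adj a a' := h1
    have h3 := f0.toHom.map_adj h2
    rw [← pre_some hv, ← pre_some hw]
    exact h3
  · intro v i x hv y
    obtain ⟨a, rfl, ha⟩ := cls_some P φ hv
    have ha' := (cl_inl P _ _ _).1 ha
    rw [key P φ hf (Nd.c i.1 y) (i, Sum.inr y) (fun w => cl_inr P w i y) (fun a' h' hA =>
      (hP i.1 i.2 a' hA y).2 h') (Pool.Agent.Q154.GH.wt t f (f a)) (t a.1) (fun a' => wt_apply t hf a a'),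
      par_apply S hf]
    refine hS a.1 (Nd.c i.1 y) ?_
    rw [ha']
    exact adj_rc _ _ _
  · intro v i x hv y
    obtain ⟨a, rfl, ha⟩ := cls_some P φ hv
    have ha' := (cl_inr P _ _ _).1 ha
    rw [key P φ hf (Nd.r i.1 y) (i, Sum.inl y) (fun w => cl_inl P w i y) (fun a' h' hA =>
      (hP i.1 i.2 a' hA y).1 h') (Pool.Agent.Q154.GH.wt t f (f a)) (t a.1) (fun a' => wt_apply t hf a a'),
      par_apply S hf]
    refine hS a.1 (Nd.r i.1 y) ?_
    rw [ha']
    exact (adj_rc _ _ _).symm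
  · intro i x
    rw [key P φ hf (Nd.r i.1 x) (i, Sum.inl x) (fun w => cl_inl P w i x) (fun a' h' hA =>
      (hP i.1 i.2 a' hA x).1 h') (par S f) S (fun a' => par_apply S hf a')]
    exact hgl i.1 x

/-- The graph is a subgraph of a connected graph of genus zero. -/
def Planar {U : Type} (K : SimpleGraph U) : Prop :=
  ∃ (V : Type) (_ : Fintype V) (L : SimpleGraph V), GenusLE L 0 ∧ K.IsContained L

theorem nonplanar (hcore : S_CORE) (hloc : S_LOC) (hglob : S_GLOB) (m p : ℕ) [NeZero m]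
    (b : MQ m → ZMod 2) (W : Type) [Fintype W] [DecidableEq W] (F : SimpleGraph W)
    (φ : W → Nd m p) (t : W → W → ZMod 2)
    (hc : Cert (MB m p) (tw b) F φ t) (v : MQ m) : ¬ Planar (F.induce (Bset φ v)) := by
  classical
  rintro ⟨V, _, L, hL, hcont⟩
  have h := core_card hcore hloc hglob m p b W F (Bset φ v)ᶜ V L 0 hL
    (by rw [compl_compl]; exact hcont) φ t hc (fun w => w = v) (by
      rintro w rfl a ha k
      exact ⟨fun h => ha ⟨k, Or.inl h⟩, fun h => ha ⟨k, Or.inr h⟩⟩)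
  have h1 : 0 < Fintype.card {w : MQ m // w = v} := Fintype.card_pos_iff.2 ⟨⟨v, rfl⟩⟩
  omega

end Pool.Agent.Q225.GH
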