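import Pool.Agent.Q225.GH.Wl
import Pool.Agent.Q225.GH.Deg
import Pool.Agent.Q225.GH.Pack
import Pool.Agent.Q210.SP.Pen
import Pool.Agent.Q210.SP.Par

set_option autoImplicit false

/-! # The final statement from the lemmas -/

namespace Pool.Agent.Q225.GH

open Finset Pool.Agent.TH658.Dg Pool.Agent.H521R3.BI Pool.Agent.Q210.SP Pool.Agent.W185.SRG

/-- Composition with an isomorphism does not change the number of homomorphisms. -/
theorem hom_iso {W V V' : Type} (F : SimpleGraph W) {G : SimpleGraph V} {G' : SimpleGraph V'}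
    (φ : G ≃g G') : Nat.card (F →g G) = Nat.card (F →g G') :=
  Nat.card_congr
    { toFun := fun f => φ.toHom.comp f
      invFun := fun f => φ.symm.toHom.comp f
      left_inv := fun f => by
        ext a
        exact φ.symm_apply_apply (f a)
      right_inv := fun f => by
        ext a
        exact φ.apply_symm_apply (f a) }

theorem gr_zero (m p : ℕ) : gr m p (0 : MQ m → ZMod 2) = (MB m p).cover 0 := by
  have h : tw (p := p) (0 : MQ m → ZMod 2) = 0 := by
    funext u w
    rcases u with v | ⟨e, c⟩ | ⟨v, x⟩ | ⟨v, y⟩ | i <;> rcases w with v' | ⟨e', c'⟩ | ⟨v', x'⟩ | ⟨v', y'⟩ | i' <;>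
      first | rfl | (show (if _ then (0 : ZMod 2) else 0) = 0; exact ite_self _)
  show (MB m p).cover (tw 0) = (MB m p).cover 0
  rw [h]

theorem main_of (hN : S_NOCERT) (hC : S_CERT) (hS : S_SELF) (hK : S_CARD) (hM : S_MAIN)
    (hcore : S_CORE) (hloc : S_LOC) (hglob : S_GLOB)
    (n : ℕ) (hn : 160000000 ≤ n) :
    ∃ G H : SimpleGraph (Fin n), ¬ Nonempty (G ≃g H) ∧
      (∀ v, Nat.card (G.neighborSet v) ≤ 296 ∧ Nat.card (H.neighborSet v) ≤ 296) ∧
      (∀ j : ℕ, 20000000 * j ≤ n → WLEquivalent j G H) ∧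
      (∀ (W : Type) [Fintype W] (F : SimpleGraph W) (r : ℕ), 321 * r ≤ n →
        (¬ ∃ B : Fin r → Set W, (∀ i j, i ≠ j → Disjoint (B i) (B j)) ∧
          ∀ i, ¬ Planar (F.induce (B i))) → Nat.card (F →g G) = Nat.card (F →g H)) ∧
      ∀ (W : Type) [Fintype W] (F : SimpleGraph W) (A : Set W) (V : Type) [Fintype V]
        (L : SimpleGraph V) (g : ℕ), GenusLE L g → (F.induce Aᶜ).IsContained L →
        321 * (A.ncard + 2 * g) ≤ n → Nat.card (F →g G) = Nat.card (F →g H) := by
  classical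
  obtain ⟨m, hm⟩ : ∃ m, m = Nat.sqrt (n / 320) := ⟨_, rfl⟩
  have h1 : m * m ≤ n / 320 := by
    rw [hm]
    exact Nat.sqrt_le _
  have h2 : n / 320 < (m + 1) * (m + 1) := by
    rw [hm]
    exact Nat.lt_succ_sqrt _
  have h3 : 700 ≤ m := by
    by_contra h
    have h4 : m + 1 ≤ 700 := by omega
    have h5 : (m + 1) * (m + 1) ≤ 700 * 700 := Nat.mul_le_mul h4 h4
    omega
  have : NeZero m := ⟨by omega⟩
  have hm2 : m ^ 2 = m * m := by ring
  have h4 : 320 * (m * m) ≤ n := by omega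
  have h5 : n < 320 * ((m + 1) * (m + 1)) := by omega
  have h6 : 320 * ((m + 1) * (m + 1)) ≤ 321 * (m * m) := by nlinarith
  have h7 : 700 * 700 ≤ m * m := Nat.mul_le_mul h3 h3
  have hcard : Fintype.card (Vt m (n - 320 * (m * m))) = n := by
    rw [← Nat.card_eq_fintype_card, hK m (n - 320 * (m * m)), hm2]
    omega
  let e : Vt m (n - 320 * (m * m)) ≃ Fin n :=
    Fintype.equivOfCardEq (hcard.trans (Fintype.card_fin n).symm)
  have hs1 : ∑ v : MQ m, (Pi.single 0 1 : MQ m → ZMod 2) v = 1 := by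
    rw [Finset.sum_pi_single']
    simp
  let G0 := gr m (n - 320 * (m * m)) (Pi.single 0 1)
  let H0 := gr m (n - 320 * (m * m)) 0
  let φG : G0 ≃g G0.map e.toEmbedding := SimpleGraph.Iso.map e _
  let φH : H0 ≃g H0.map e.toEmbedding := SimpleGraph.Iso.map e _
  refine ⟨G0.map e.toEmbedding, H0.map e.toEmbedding, ?_, ?_, ?_, ?_, ?_⟩
  · rintro ⟨ψ⟩
    have h8 := hC (Nd m (n - 320 * (m * m))) (MB m _) (tw (Pi.single 0 1)) _ (MB m _).G
      (hS m (n - 320 * (m * m)) (Pi.single 0 1) hs1)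
    have h9 := hom_iso (MB m (n - 320 * (m * m))).G ((φG.trans ψ).trans φH.symm)
    have h10 : H0 = (MB m (n - 320 * (m * m))).cover 0 := gr_zero m _
    rw [h10] at h9
    exact absurd h9 h8.ne
  · intro v
    have h8 := deg_le m (n - 320 * (m * m)) (Pi.single 0 1) (φG.symm v)
    have h9 := deg_le m (n - 320 * (m * m)) 0 (φH.symm v)
    rw [Nat.card_congr (φG.symm.mapNeighborSet v)]
    rw [Nat.card_congr (φH.symm.mapNeighborSet v)]
    exact ⟨h8, h9⟩
  · intro j hj
    refine wle_trans (wle_symm (wle_iso φG j)) (wle_trans ?_ (wle_iso φH j))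
    refine gr_wl (K := 8 * (j + 1)) ?_ le_rfl _ _
    rw [hm2]
    omega
  · intro W _ F r hr hB
    rw [← hom_iso F φG, ← hom_iso F φH]
    have h10 : H0 = (MB m (n - 320 * (m * m))).cover 0 := gr_zero m _
    rw [h10]
    refine hN _ _ _ W F fun hcert => hB ?_
    obtain ⟨φ, t, hc⟩ := hcert
    have h11 : Fintype.card (Fin r) ≤ Fintype.card (MQ m) := by
      rw [Fintype.card_fin, Fintype.card_prod, ZMod.card]
      omega
    obtain ⟨ι⟩ := Function.Embedding.nonempty_of_card_le h11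
    exact ⟨fun i => Bset φ (ι i), fun i j hij => Bset_disj φ fun h => hij (ι.injective h),
      fun i => nonplanar hcore hloc hglob m _ _ W F φ t hc (ι i)⟩
  · intro W _ F A V _ L g hL hA hn'
    rw [← hom_iso F φG, ← hom_iso F φH]
    have h10 : H0 = (MB m (n - 320 * (m * m))).cover 0 := gr_zero m _
    rw [h10]
    refine hN _ _ _ W F fun hcert => ?_
    have h11 := hM m (n - 320 * (m * m)) (Pi.single 0 1) W F A V L g hL hA hcert
    rw [hm2] at h11
    omega

end Pool.Agent.Q225.GH
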