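import Pool.Agent.Q210.SP.Net

set_option autoImplicit false

/-!
# Project GH (helper225): homomorphism counts from graphs of linear genus with linearly many apices

Statements of the lemmas; every docstring contains a complete proof. All arithmetic is modulo two.
-/

namespace Pool.Agent.Q225.GH

open Finset Pool.Agent.TH658.Dg Pool.Agent.Q210.SP

/-! ## Covers -/

/-- A base graph, with an index set `I u` at every node `u` (the fibre is `F_2 ^ (I u)`) and a linear
functional `lam u w` on the fibre of `u` for each other node `w`. -/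
structure Base (U : Type) where
  /-- the base graph -/
  G : SimpleGraph U
  /-- the indices at a node -/
  I : U → Type
  [fin : ∀ u, Fintype (I u)]
  [dec : ∀ u, DecidableEq (I u)]
  /-- the coefficients of the functional of `u` for the neighbour `w` -/
  lam : (u w : U) → I u → ZMod 2

attribute [instance] Base.fin Base.dec

/-- The value of the functional of `u` for `w` at `s`. -/
def Base.ev {U : Type} (B : Base U) (u w : U) (s : B.I u → ZMod 2) : ZMod 2 :=
  ∑ i, B.lam u w i * s i

/-- The cover: `(u, s)` and `(w, s')` are adjacent if `u`, `w` are and the values of the two functionals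
add up to `β u w + β w u`. -/
def Base.cover {U : Type} (B : Base U) (β : U → U → ZMod 2) :
    SimpleGraph (Σ u : U, (B.I u → ZMod 2)) where
  Adj x y := B.G.Adj x.1 y.1 ∧
    B.ev x.1 y.1 x.2 + B.ev y.1 x.1 y.2 = β x.1 y.1 + β y.1 x.1
  symm := ⟨fun _ _ h => ⟨h.1.symm, by rw [add_comm, h.2, add_comm]⟩⟩
  loopless := ⟨fun x h => B.G.loopless.irrefl x.1 h.1⟩

/-- A certificate: a homomorphism `φ` of `F` to the base graph and a symmetric `t`, supported on edges, for
which all solutions of the equations of the cover over `φ` are excluded. -/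
structure Cert {U : Type} (B : Base U) (β : U → U → ZMod 2) {W : Type} [Fintype W]
    (F : SimpleGraph W) (φ : W → U) (t : W → W → ZMod 2) : Prop where
  adj : ∀ a b, F.Adj a b → B.G.Adj (φ a) (φ b)
  symm : ∀ a b, t a b = t b a
  supp : ∀ a b, t a b ≠ 0 → F.Adj a b
  van : ∀ a (i : B.I (φ a)), ∑ b, t a b * B.lam (φ a) (φ b) i = 0
  odd : ∑ a, ∑ b, t a b * β (φ a) (φ b) = 1

/-- JOB NOCERT. Without a certificate the numbers of homomorphisms to the two covers are equal.

Proof. Homomorphisms `F →g B.cover β` correspond to pairs (`φ : W → U` with `F.Adj a b → B.G.Adj (φ a) (φ b)`;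
`s : (a : W) → B.I (φ a) → ZMod 2` with `ev (s a) + ev (s b) = β + β` for all adjacent `a b`). Sum over `φ`
(finite type). For fixed `φ` the solutions `s` for `β`, if there is one, `s₀`, correspond to those for `0` by
`s ↦ s + s₀`. So it is enough to find a solution for every `φ`. Let `L : ((a : W) → B.I (φ a) → ZMod 2) →ₗ
(W × W → ZMod 2)`, `L s (a, b) = if F.Adj a b then ev (φ a) (φ b) (s a) + ev (φ b) (φ a) (s b) else 0`, and
`τ (a, b) = if F.Adj a b then β (φ a) (φ b) + β (φ b) (φ a) else 0`. If `τ` is not in the range of `L` then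
some functional, given by `t' : W × W → ZMod 2` (`Submodule.exists_dual_map_eq_bot_of_notMem` or
`Submodule.exists_le_ker_of_notMem`), vanishes on the range and has the value `1` at `τ` (nonzero
in `ZMod 2`). Put `t a b = if F.Adj a b then t' (a, b) + t' (b, a) else 0`. With `s` the unit vector at
`a`, `i` one gets `van`, and `t' (τ) = 1` gives `odd`; so `φ, t` is a certificate, a contradiction. -/
def S_NOCERT : Prop := ∀ (U : Type) [Fintype U] [DecidableEq U] (B : Base U) (β : U → U → ZMod 2)
  (W : Type) [Fintype W] [DecidableEq W] (F : SimpleGraph W),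
  (¬ ∃ φ t, Cert B β F φ t) → Nat.card (F →g B.cover β) = Nat.card (F →g B.cover 0)

/-- JOB CERT. With a certificate the second cover has more homomorphisms.

Proof. As in `NOCERT`: for all `φ` the number of solutions for `β` is at most the number of solutions
for `0` (it is `0` or equal), and for the `φ` of the certificate there is none for `β`: multiply the
equations by `t a b` and add them over all ordered pairs... precisely: for a solution `s`,
`∑ a, ∑ b, t a b * ev (φ a) (φ b) (s a) = ∑ a, ∑ i, (∑ b, t a b * lam (φ a) (φ b) i) * s a i = 0`. The sum over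
`a, b` of `t a b * g a b` with `g a b = ev (φ a) (φ b) (s a) + β (φ a) (φ b)` is therefore `0 + 1 = 1`; but
`t` is symmetric, `t a a = 0` and `g a b = g b a` whenever `t a b ≠ 0` (the equation of the cover says
`g a b + g b a = 0`), so the sum is `0` (the involution `(a, b) ↦ (b, a)` without fixed points in the
support: `Finset.sum_involution`). A contradiction. There is a solution for `0`, namely `s = 0`. -/
def S_CERT : Prop := ∀ (U : Type) [Fintype U] [DecidableEq U] (B : Base U) (β : U → U → ZMod 2)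
  (W : Type) [Fintype W] [DecidableEq W] (F : SimpleGraph W),
  (∃ φ t, Cert B β F φ t) → Nat.card (F →g B.cover β) < Nat.card (F →g B.cover 0)

/-! ## The base -/

/-- The nodes of the base: nodes of the Margulis graph, two for every edge, a complete bipartite graph
`K_{3,3}` (rows and columns) for every node, and isolated nodes. -/
inductive Nd (m p : ℕ) : Type
  | q (v : MQ m)
  | d (e : ME m) (b : Bool)
  | r (v : MQ m) (x : Fin 3)
  | c (v : MQ m) (y : Fin 3)
  | z (i : Fin p)
deriving DecidableEq

/-- The nodes as a sum. -/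
def ndEquiv (m p : ℕ) : Nd m p ≃ MQ m ⊕ (ME m × Bool) ⊕ (MQ m × Fin 3) ⊕ (MQ m × Fin 3) ⊕ Fin p where
  toFun
    | Nd.q v => Sum.inl v
    | Nd.d e b => Sum.inr (Sum.inl (e, b))
    | Nd.r v x => Sum.inr (Sum.inr (Sum.inl (v, x)))
    | Nd.c v y => Sum.inr (Sum.inr (Sum.inr (Sum.inl (v, y))))
    | Nd.z i => Sum.inr (Sum.inr (Sum.inr (Sum.inr i)))
  invFun
    | Sum.inl v => Nd.q v
    | Sum.inr (Sum.inl (e, b)) => Nd.d e b
    | Sum.inr (Sum.inr (Sum.inl (v, x))) => Nd.r v x
    | Sum.inr (Sum.inr (Sum.inr (Sum.inl (v, y)))) => Nd.c v y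
    | Sum.inr (Sum.inr (Sum.inr (Sum.inr i))) => Nd.z i
  left_inv u := by cases u <;> rfl
  right_inv u := by
    rcases u with v | ⟨e, b⟩ | ⟨v, x⟩ | ⟨v, y⟩ | i <;> rfl

instance {m p : ℕ} [NeZero m] : Fintype (Nd m p) := Fintype.ofEquiv _ (ndEquiv m p).symm

/-- One direction of the adjacency of the base. The node `d e false` is next to the tail of `e`, `d e true`
next to its head. -/
def ndRel {m p : ℕ} : Nd m p → Nd m p → Prop
  | Nd.q v, Nd.d e b => if b then mtgt m e = v else msrc m e = v
  | Nd.q v, Nd.r w x => v = w ∧ x = 0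
  | Nd.d e b, Nd.d e' b' => e = e' ∧ b = false ∧ b' = true
  | Nd.r v _, Nd.c w _ => v = w
  | _, _ => False

/-- The vectors `(1, 0, 0)`, `(0, 1, 0)`, `(1, 1, 0)`; their sum is zero and this is the only relation. -/
def vec3 (y i : Fin 3) : ZMod 2 := if i = 2 then 0 else if y = 2 then 1 else if y = i then 1 else 0

/-- The base. The index set is: the eight ports at `q v` (port `inl k`: the edge `(k, _)` with head `v`,
port `inr k`: the edge `(k, v)` with tail `v`), one index at `d e b`, three indices at the nodes of the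
`K_{3,3}`, none at `z i`. At each node the sum of the functionals of all neighbours is zero and this is
the only linear relation between them. -/
def MB (m p : ℕ) : Base (Nd m p) where
  G := { Adj := fun u w => ndRel u w ∨ ndRel w u
         symm := ⟨fun _ _ h => h.symm⟩
         loopless := ⟨by
          rintro (v | ⟨e, b⟩ | ⟨v, x⟩ | ⟨v, y⟩ | i) (h | h)
          · exact h
          · exact h
          · exact Bool.false_ne_true (h.2.1.symm.trans h.2.2)
          · exact Bool.false_ne_true (h.2.1.symm.trans h.2.2)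
          · exact h
          · exact h
          · exact h
          · exact h
          · exact h
          · exact h⟩ }
  I
    | Nd.q _ => Pt
    | Nd.d _ _ => Unit
    | Nd.r _ _ => Fin 3
    | Nd.c _ _ => Fin 3
    | Nd.z _ => Empty
  fin u := by cases u <;> infer_instance
  dec u := by cases u <;> infer_instance
  lam
    | Nd.q _, Nd.d e b => fun j => if j = (if b then Sum.inl e.1 else Sum.inr e.1) then 1 else 0
    | Nd.q _, _ => fun _ => 1
    | Nd.d _ _, _ => fun _ => 1
    | Nd.r _ x, Nd.c _ y => fun i => if x = 0 then (if i = y then 1 else 0) else vec3 y i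
    | Nd.r _ _, _ => fun _ => 1
    | Nd.c _ _, Nd.r _ x => fun i => vec3 x i
    | Nd.c _ _, _ => fun _ => 1
    | Nd.z _, _ => fun _ => 0

/-- The twist: `b v` on the edge from `q v` to `r v 0`. -/
def tw {m p : ℕ} (b : MQ m → ZMod 2) : Nd m p → Nd m p → ZMod 2
  | Nd.q v, Nd.r w x => if v = w ∧ x = 0 then b v else 0
  | _, _ => 0

/-- The graph with the bits `b`. -/
def gr (m p : ℕ) (b : MQ m → ZMod 2) :
    SimpleGraph (Σ u : Nd m p, ((MB m p).I u → ZMod 2)) := (MB m p).cover (tw b)

/-- JOB LOC. At every vertex `a` of `F` the parities for all neighbours of `φ a` in the base are equal.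

Proof. If `t a b ≠ 0` then `φ b` is a neighbour of `φ a`. Write `ε w = ∑ b with φ b = w, t a b`. Then
`∑ b, t a b * lam (φ a) (φ b) i = ∑_{neighbours w of φ a} ε w * lam (φ a) w i = 0` for all `i`. Cases.
`φ a = q v`: the neighbours are `r v 0` (functional: all ones) and for each port `j` one node `d e b`
(`j = inl k`: `e = (k, (sg m k).symm v)`, `b = true`; `j = inr k`: `e = (k, v)`, `b = false`), with functional the
unit vector of `j`; so `ε (d e b) + ε (r v 0) = 0` for each of them. `φ a = d e b`: the two neighbours (`q` and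
`d e (!b)`) have functional `1`, so their parities are equal. `φ a = r v 0`: `i = y` gives `ε (c v y) + ε (q v) = 0`.
`φ a = r v x`, `x ≠ 0`: `i = 0` gives `ε (c v 0) + ε (c v 2) = 0`, `i = 1` gives `ε (c v 1) + ε (c v 2) = 0`.
`φ a = c v y`: the same with `r v x`. `φ a = z i`: no neighbours. -/
def S_LOC : Prop := ∀ (m p : ℕ) [NeZero m] (b : MQ m → ZMod 2) (W : Type) [Fintype W] [DecidableEq W]
  (F : SimpleGraph W) (φ : W → Nd m p) (t : W → W → ZMod 2), Cert (MB m p) (tw b) F φ t →
  ∃ S : W → ZMod 2, ∀ (a : W) (w : Nd m p), (MB m p).G.Adj (φ a) w →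
    (∑ b' : W with φ b' = w, t a b') = S a

/-- JOB GLOB (premise `S_LOC` not needed; its conclusion is a hypothesis here). All nodes except the `z i`
are covered an odd number of times.

Proof. Let `y u = ∑ a with φ a = u, S a`. For adjacent `u, w` of the base `y u = ∑_{φ a = u} ∑_{φ b = w} t a b =
y w` by the symmetry of `t`. So `y (q (msrc e)) = y (d e false) = y (d e true) = y (q (mtgt e))`; with
`exists_flow v w` (a flow `M` with `bd M = 1_v + 1_w`) and the pairing
`∑ u, y u * bd M u = ∑ e, (y (tgt e) - y (src e)) * M e = 0` (theorem `pairing`) all `y (q v)` are equal, say to `κ`.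
`odd` says `1 = ∑_v b v * ∑_{φ a = q v} ∑_{φ b' = r v 0} t a b' = ∑_v b v * y (q v) = κ * ∑ b`, so `κ = 1`. Finally
`y (r v 0) = y (q v)`, `y (c v y') = y (r v 0)`, `y (r v x) = y (c v 0)`. -/
def S_GLOB : Prop := ∀ (m p : ℕ) [NeZero m] (b : MQ m → ZMod 2) (W : Type) [Fintype W] [DecidableEq W]
  (F : SimpleGraph W) (φ : W → Nd m p) (t : W → W → ZMod 2), Cert (MB m p) (tw b) F φ t →
  ∀ S : W → ZMod 2, (∀ (a : W) (w : Nd m p), (MB m p).G.Adj (φ a) w →
    (∑ b' : W with φ b' = w, t a b') = S a) →
  ∀ (v : MQ m) (x : Fin 3), (∑ a : W with φ a = Nd.r v x, S a) = 1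

/-- JOB SELF. The identity of the base graph has a certificate if the bits have an odd sum.

Proof. `t u w = if adjacent then 1 else 0`. `van` says that at each node the functionals of all neighbours
add up to zero: at `q v`, index `j`: the neighbour `d e b` at port `j` (exactly one) contributes `1`, the other
`d`s `0`, and `r v 0` contributes `1`. At `d e b`: two neighbours, each `1`. At `r v 0`, index `i`: `c v i` and `q v`. At
`r v x`, `x ≠ 0`: `vec3 0 + vec3 1 + vec3 2 = 0`. At `c v y`: the same. `odd`: the sum is `∑_v b v`. -/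
def S_SELF : Prop := ∀ (m p : ℕ) [NeZero m] (b : MQ m → ZMod 2), ∑ v, b v = 1 →
  ∃ φ t, Cert (MB m p) (tw b) (MB m p).G φ t

/-- JOB CARD. The number of vertices: `256 m²` over the `q v`, `2 * 8 m²` over the `d e b`, `8 * 6 m²` over the
rows and columns, one over each `z i`. -/
def S_CARD : Prop := ∀ (m p : ℕ) [NeZero m],
  Nat.card (Σ u : Nd m p, ((MB m p).I u → ZMod 2)) = 320 * m ^ 2 + p

/-! ## Rotation systems -/

section

variable {V : Type} [Fintype V] [DecidableEq V] (H : SimpleGraph V)

/-- Reversal of darts. -/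
def flip : Equiv.Perm H.Dart := (SimpleGraph.Dart.symm_involutive (G := H)).toPerm _

variable {H} in
/-- The faces of a rotation system: the orbits of `d ↦ σ (reversal of d)`. -/
abbrev Faces (σ : Equiv.Perm H.Dart) : Type :=
  Quotient (Equiv.Perm.SameCycle.setoid (σ * flip H))

/-- `σ` is a rotation system of the connected graph `H` (it permutes the darts starting at any vertex
cyclically) and `|E| + 2 ≤ |V| + |faces| + 2 g`. -/
structure Rot (σ : Equiv.Perm H.Dart) (g : ℕ) : Prop where
  conn : H.Connected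
  vert : ∀ d d' : H.Dart, σ.SameCycle d d' ↔ d.fst = d'.fst
  euler : Nat.card H.edgeSet + 2 ≤ Nat.card V + Nat.card (Faces σ) + 2 * g

/-- The connected graph `H` has (orientable) genus at most `g`. -/
def GenusLE (g : ℕ) : Prop := ∃ σ : Equiv.Perm H.Dart, Rot H σ g

/-- Chains modulo two. -/
abbrev Ch : Type := H.edgeSet → ZMod 2

variable {H}

/-- The value of a chain at the edge of a dart. -/
def on (P : Ch H) (d : H.Dart) : ZMod 2 := P ⟨d.edge, d.edge_mem⟩

variable [DecidableRel H.Adj]

/-- Cycles modulo two. -/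
def Cyc (P : Ch H) : Prop := ∀ v : V, ∑ d : H.Dart with d.fst = v, on P d = 0

/-- `pos` numbers the darts at each vertex consecutively along `σ`, beginning with `0`. -/
structure Pos (σ : Equiv.Perm H.Dart) (pos : H.Dart → ℕ) : Prop where
  inj : ∀ d d' : H.Dart, d.fst = d'.fst → pos d = pos d' → d = d'
  next : ∀ d : H.Dart, pos (σ d) = pos d + 1 ∨
    (pos (σ d) = 0 ∧ ∀ d' : H.Dart, d'.fst = d.fst → pos d' ≤ pos d)

/-- The sum of the values of `Q` at the darts at the same vertex, up to `d`. -/
def pot (pos : H.Dart → ℕ) (Q : Ch H) (d : H.Dart) : ZMod 2 :=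
  ∑ d' : H.Dart with d'.fst = d.fst ∧ pos d' ≤ pos d, on Q d'

/-- The intersection form (on cycles). -/
def form (pos : H.Dart → ℕ) (P Q : Ch H) : ZMod 2 :=
  ∑ d : H.Dart, on P d * pot pos Q d + ∑ e, P e * Q e

open Classical in
/-- The boundary of a face modulo two. -/
noncomputable def fch (σ : Equiv.Perm H.Dart) (f : Faces σ) : Ch H :=
  fun e => ∑ d : H.Dart with d.edge = e.1 ∧ (Quotient.mk _ d : Faces σ) = f, 1

end

/-- JOB POS. Numbering of the darts.

Proof. Choose a base dart at each vertex which has one (`Classical`), `base : V → H.Dart` or use a function of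
the vertex; for a dart `d` let `pos d` be the least `k` with `(σ ^ k) (base d.fst) = d` (it exists by `vert`, as the
graph is finite: `Equiv.Perm.SameCycle.exists_pow_eq'` or `exists_nat_pow_eq`). `inj` is clear. If
`σ d ≠ base` then `pos (σ d) = pos d + 1` (`≤` clear; if `pos (σ d) = k + 1` then `(σ ^ k) base = d` by injectivity, so
`pos d ≤ k`; it is not `0`). If `σ d = base` then `pos (σ d) = 0`, and with `N = pos d`, `(σ ^ (N + 1)) base = base`, so
every dart at the vertex is `(σ ^ j) base` with `j ≤ N` (division with remainder by `N + 1`). -/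
def S_POS : Prop := ∀ (V : Type) [Fintype V] [DecidableEq V] (H : SimpleGraph V) [DecidableRel H.Adj]
  (σ : Equiv.Perm H.Dart), (∀ d d' : H.Dart, σ.SameCycle d d' ↔ d.fst = d'.fst) → ∃ pos, Pos σ pos

/-- JOB NEXT. `pot` changes by `Q` from a dart to the next one.

Proof. `(σ d).fst = d.fst`. If `pos (σ d) = pos d + 1` then the darts up to `σ d` are those up to `d` and `σ d`
(`inj`). Otherwise `pos (σ d) = 0`, so `pot (σ d) = on Q (σ d)` (only one dart at the vertex has number `0`), and
`pot d` is the sum over all darts at the vertex, which is `0`. -/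
def S_NEXT : Prop := ∀ (V : Type) [Fintype V] [DecidableEq V] (H : SimpleGraph V) [DecidableRel H.Adj]
  (σ : Equiv.Perm H.Dart) (pos : H.Dart → ℕ), (∀ d d' : H.Dart, σ.SameCycle d d' ↔ d.fst = d'.fst) →
  Pos σ pos → ∀ Q : Ch H, Cyc Q → ∀ d, pot pos Q (σ d) = pot pos Q d + on Q (σ d)

/-- JOB FORMF (premise `S_NEXT`). Boundaries of faces are orthogonal to all cycles.

Proof. Write `B = fch σ f`, `[d ∈ f]` for the indicator of `⟦d⟧ = f`. `on B d = [d ∈ f] + [d.symm ∈ f]`. So
`∑_d on B d * pot Q d = ∑_{d ∈ f} (pot Q d + pot Q d.symm)` and `∑_e B e * Q e = ∑_{d ∈ f} on Q d`. By `S_NEXT`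
at `σ⁻¹ d`: `pot Q d + on Q d = pot Q (σ⁻¹ d)`. So the form is `∑_{d ∈ f} pot Q (σ⁻¹ d) + ∑_{d ∈ f} pot Q d.symm`, and
the bijection `d ↦ σ d.symm` of `f` onto itself shows that both sums are equal. -/
def S_FORMF : Prop := ∀ (V : Type) [Fintype V] [DecidableEq V] (H : SimpleGraph V) [DecidableRel H.Adj]
  (σ : Equiv.Perm H.Dart) (pos : H.Dart → ℕ), (∀ d d' : H.Dart, σ.SameCycle d d' ↔ d.fst = d'.fst) →
  Pos σ pos → ∀ Q : Ch H, Cyc Q → ∀ f : Faces σ, form pos (fch σ f) Q = 0

/-- JOB CYCF. Boundaries of faces are cycles.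

Proof. `∑_{d at v} on (fch σ f) d = #{d at v : d ∈ f} + #{d at v : d.symm ∈ f}`, and `d ↦ σ⁻¹ d` is a bijection
between these sets: `d ∈ f` iff `(σ⁻¹ d).symm ∈ f`, because `σ ((σ⁻¹ d).symm).symm = d`. -/
def S_CYCF : Prop := ∀ (V : Type) [Fintype V] [DecidableEq V] (H : SimpleGraph V) [DecidableRel H.Adj]
  (σ : Equiv.Perm H.Dart), (∀ d d' : H.Dart, σ.SameCycle d d' ↔ d.fst = d'.fst) →
  ∀ f : Faces σ, Cyc (fch σ f)

open Classical in
/-- JOB KER. The only relation between the boundaries of the faces.

Proof. The value of `∑ f, y f • fch σ f` at the edge of `d` is `y ⟦d⟧ + y ⟦d.symm⟧`. So `Y d = y ⟦d⟧` satisfies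
`Y d.symm = Y d`, and `Y (σ d) = Y (σ (d.symm).symm) = Y d.symm = Y d` since `d.symm` and `σ (d.symm).symm` are in one
face. So `Y` is constant on the darts at a vertex (`vert`) and `Y d = Y d.symm`; by connectivity `Y` is
constant, and every face contains a dart. -/
def S_KER : Prop := ∀ (V : Type) [Fintype V] [DecidableEq V] (H : SimpleGraph V) [DecidableRel H.Adj]
  (σ : Equiv.Perm H.Dart), H.Connected → (∀ d d' : H.Dart, σ.SameCycle d d' ↔ d.fst = d'.fst) →
  ∀ y : Faces σ → ZMod 2, (∑ f, y f • fch σ f) = 0 → ∀ f f', y f = y f'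

/-- JOB DIMC. The dimension of the space of cycles of a connected graph (upper bound).

Proof. Let `∂ : Ch H →ₗ (V → ZMod 2)`, `∂ P v = ∑ d with d.fst = v, on P d`. Its kernel is the space of
cycles. The quotient `(V → ZMod 2) ⧸ range ∂` is spanned by the class of `Pi.single v₀ 1`, because
`Pi.single v 1 + Pi.single w 1` is in the range for adjacent `v, w`, hence (connected) for all `v, w`. So
`finrank (range ∂) ≥ |V| - 1`, and `finrank ker = |E| - finrank range`. -/
def S_DIMC : Prop := ∀ (V : Type) [Fintype V] [DecidableEq V] (H : SimpleGraph V) [DecidableRel H.Adj],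
  H.Connected → ∀ Z : Submodule (ZMod 2) (Ch H), (∀ P ∈ Z, Cyc P) →
  Module.finrank (ZMod 2) Z + Nat.card V ≤ Nat.card H.edgeSet + 1

/-- JOB RANK (premises `S_FORMF`, `S_CYCF`, `S_KER`, `S_DIMC`). Dual families of cycles are small.

Proof. `Φ : (R → ZMod 2) × (Faces σ → ZMod 2) →ₗ Ch H`, `Φ (c, y) = ∑ c i • P i + ∑ y f • fch σ f`. The range `Z`
consists of cycles. If `Φ (c, y) = 0` then `0 = form 0 (Q j) = c j` (the form is linear in the first argument, and
`S_FORMF`), so `c = 0`, and then `y` is constant by `S_KER`; so `finrank (ker Φ) ≤ 1`. Hence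
`|R| + |Faces| - 1 ≤ finrank Z ≤ |E| + 1 - |V|` by `S_DIMC`, and `|E| + 2 ≤ |V| + |Faces| + 2 g` gives `|R| ≤ 2 g`. -/
def S_RANK : Prop := ∀ (V : Type) [Fintype V] [DecidableEq V] (H : SimpleGraph V) [DecidableRel H.Adj]
  (σ : Equiv.Perm H.Dart) (g : ℕ) (pos : H.Dart → ℕ), Rot H σ g → Pos σ pos →
  ∀ (R : Type) [Fintype R] [DecidableEq R] (P Q : R → Ch H), (∀ i, Cyc (P i)) → (∀ i, Cyc (Q i)) →
    (∀ i j, form pos (P i) (Q j) = if i = j then 1 else 0) → Fintype.card R ≤ 2 * g

/-- JOB BIL. The form is bilinear.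

Proof. `on`, `pot` are linear in the chain. (For `pot`: sum of a sum.) -/
def S_BIL : Prop := ∀ (V : Type) [Fintype V] [DecidableEq V] (H : SimpleGraph V) [DecidableRel H.Adj]
  (pos : H.Dart → ℕ) (I J : Type) [Fintype I] [Fintype J] (c : I → ZMod 2) (c' : J → ZMod 2)
  (P : I → Ch H) (Q : J → Ch H),
  form pos (∑ i, c i • P i) (∑ j, c' j • Q j) = ∑ i, ∑ j, c i * c' j * form pos (P i) (Q j)

/-- JOB ORTH. Chains without a common vertex are orthogonal.

Proof. If `on P d ≠ 0` then `Q` vanishes at all darts at the vertex of `d`, so `pot Q d = 0`. If `P e ≠ 0` and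
`Q e ≠ 0`, take a dart `d` of `e` and `d' = d`. -/
def S_ORTH : Prop := ∀ (V : Type) [Fintype V] [DecidableEq V] (H : SimpleGraph V) [DecidableRel H.Adj]
  (pos : H.Dart → ℕ) (P Q : Ch H), (∀ d d' : H.Dart, d.fst = d'.fst → on P d = 0 ∨ on Q d' = 0) →
  form pos P Q = 0

/-- JOB SWAP. The symmetrised form.

Proof. `∑_e P e * Q e = 0`. `form P Q + form Q P = ∑_v ∑_{d, d' at v} on P d * on Q d' * ([pos d' ≤ pos d] +
[pos d ≤ pos d'])`; for `d ≠ d'` exactly one of the two inequalities holds (`inj`), for `d = d'` the product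
`on P d * on Q d` is `0`. -/
def S_SWAP : Prop := ∀ (V : Type) [Fintype V] [DecidableEq V] (H : SimpleGraph V) [DecidableRel H.Adj]
  (σ : Equiv.Perm H.Dart) (pos : H.Dart → ℕ), Pos σ pos → ∀ P Q : Ch H, (∀ e, P e = 0 ∨ Q e = 0) →
  form pos P Q + form pos Q P =
    ∑ v : V, (∑ d : H.Dart with d.fst = v, on P d) * (∑ d : H.Dart with d.fst = v, on Q d)

/-- The data of a generalised drawing of `K_{3,3}`: `cls v = some (inl x)` if `v` belongs to the row `x`,
`some (inr y)` if it belongs to the column `y`; `T x y` is the chain of the edge from row `x` to column `y`, `S v`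
the parity of `v`. -/
structure K33 {V : Type} [Fintype V] [DecidableEq V] {H : SimpleGraph V} [DecidableRel H.Adj]
    (cls : V → Option (Fin 3 ⊕ Fin 3)) (T : Fin 3 → Fin 3 → Ch H) (S : V → ZMod 2) : Prop where
  row : ∀ v x, cls v = some (Sum.inl x) → ∀ y, (∑ d : H.Dart with d.fst = v, on (T x y) d) = S v
  col : ∀ v y, cls v = some (Sum.inr y) → ∀ x, (∑ d : H.Dart with d.fst = v, on (T x y) d) = S v
  supp : ∀ x y (d : H.Dart), on (T x y) d ≠ 0 →
    (cls d.fst = some (Sum.inl x) ∧ cls d.snd = some (Sum.inr y)) ∨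
    (cls d.fst = some (Sum.inr y) ∧ cls d.snd = some (Sum.inl x))
  odd : ∀ x, (∑ v : V with cls v = some (Sum.inl x), S v) = 1

/-- JOB KPAIR (premises `S_ORTH`, `S_SWAP`). The values of the form at the chains of the edges.

Proof. First part: `x ≠ x'` and `y ≠ y'`: by `supp` the chains `T x y` and `T x' y'` have no common vertex
(`S_ORTH`). Second part: `y ≠ y'`: `T x y e = 0 ∨ T x y' e = 0` by `supp`; by `S_SWAP` the sum is `∑_v a_v a'_v`, where
`a_v`, `a'_v` are the sums of `T x y`, `T x y'` over the darts at `v`; for `v` in row `x` both are `S v`, and for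
every other `v` one of them is `0` by `supp` (a vertex in column `y` is not in column `y'`). So the sum is
`∑_{v in row x} S v * S v = ∑ S v = 1`. -/
def S_KPAIR : Prop := ∀ (V : Type) [Fintype V] [DecidableEq V] (H : SimpleGraph V) [DecidableRel H.Adj]
  (σ : Equiv.Perm H.Dart) (pos : H.Dart → ℕ), Pos σ pos →
  ∀ (cls : V → Option (Fin 3 ⊕ Fin 3)) (T : Fin 3 → Fin 3 → Ch H) (S : V → ZMod 2), K33 cls T S →
  (∀ x x' y y', x ≠ x' → y ≠ y' → form pos (T x y) (T x' y') = 0) ∧
  ∀ x y y', y ≠ y' → form pos (T x y) (T x y') + form pos (T x y') (T x y) = 1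

/-- JOB K33 (premises `S_KPAIR`, `S_BIL`). Two cycles whose intersection number is odd.

Proof. Let `x₁ = (1, 1, 0)`, `x₂ = (0, 1, 1)`, `x₃ = x₁ + x₂ = (1, 0, 1)` in `F_2 ^ 3` and let `u × w` be the matrix
`u x * w y`. For `z = u × w` with `u, w` among the `x_i` the chain `∑ z x y • T x y` is a cycle: at a vertex of row `x`
its sum is `u x * (∑ w) * S v = 0`, similarly in columns, and at other vertices it vanishes. Consider the four
pairs `(z, z')`: `(x₃ × x₂, x₁ × x₁)`, `(x₃ × x₁, x₁ × x₂)`, `(x₂ × x₂, x₂ × x₁)`, `(x₂ × x₁, x₂ × x₂)`. For all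
`x, x', y, y'` the sum of `z x y * z' x' y'` over the four pairs is `D x x' * K y y'` with `D x x' = 1` iff
`x' = x` or `x' = x + 1`, `K y y' = 1` iff `y ≠ y'` (`decide`). So by `S_BIL` the sum of the forms of the four pairs is
`∑_{x, y, x', y'} D x x' K y y' form (T x y) (T x' y')`. The terms with `x ≠ x'` vanish by `S_KPAIR`, and for each `x` the
terms with `x' = x` are three pairs `form (T x y) (T x y') + form (T x y') (T x y) = 1`, together `1`. So the total is
`1 + 1 + 1 = 1`, and one of the four forms is `1`. -/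
def S_K33 : Prop := ∀ (V : Type) [Fintype V] [DecidableEq V] (H : SimpleGraph V) [DecidableRel H.Adj]
  (σ : Equiv.Perm H.Dart) (pos : H.Dart → ℕ), Pos σ pos →
  ∀ (cls : V → Option (Fin 3 ⊕ Fin 3)) (T : Fin 3 → Fin 3 → Ch H) (S : V → ZMod 2), K33 cls T S →
  ∃ z z' : Fin 3 → Fin 3 → ZMod 2, Cyc (∑ x, ∑ y, z x y • T x y) ∧ Cyc (∑ x, ∑ y, z' x y • T x y) ∧
    form pos (∑ x, ∑ y, z x y • T x y) (∑ x, ∑ y, z' x y • T x y) = 1

/-- JOB CORE (premises `S_POS`, `S_K33`, `S_ORTH`, `S_RANK`). Disjoint generalised drawings of `K_{3,3}` in a graph of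
genus `g`: there are at most `2 g` of them.

Proof. Take `σ` and `pos`. For `i : R` let `cls_i v = some k` if `cls v = some (i, k)`, otherwise `none`, and
`T_i x y e = 1` if the edge `e` joins some `a, b` with `cls a = some (i, inl x)`, `cls b = some (i, inr y)` and `t a b = 1`,
otherwise `0` (well defined on unordered pairs since `t` is symmetric; `a`, `b` are determined by `e` as the
classes are different). Then for `v` in row `x`: `∑_{d at v} on (T_i x y) d = ∑_{b in column y} t v b = S v`. So
`K33 cls_i (T_i) S` holds, and `S_K33` gives cycles `P_i, Q_i` with `form P_i Q_i = 1`, combinations of the `T_i x y`. For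
`i ≠ j`, `P_i` and `Q_j` have no common vertex (`S_ORTH`). Apply `S_RANK`. -/
def S_CORE : Prop := ∀ (V : Type) [Fintype V] [DecidableEq V] (H : SimpleGraph V) (g : ℕ), GenusLE H g →
  ∀ (R : Type) [Fintype R] [DecidableEq R] (cls : V → Option (R × (Fin 3 ⊕ Fin 3))) (t : V → V → ZMod 2)
    (S : V → ZMod 2), (∀ a b, t a b = t b a) → (∀ a b, t a b ≠ 0 → H.Adj a b) →
    (∀ a i x, cls a = some (i, Sum.inl x) → ∀ y, (∑ b : V with cls b = some (i, Sum.inr y), t a b) = S a) →
    (∀ a i y, cls a = some (i, Sum.inr y) → ∀ x, (∑ b : V with cls b = some (i, Sum.inl x), t a b) = S a) →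
    (∀ i x, (∑ a : V with cls a = some (i, Sum.inl x), S a) = 1) →
    Fintype.card R ≤ 2 * g

/-- JOB MAIN (premises `S_CORE`, `S_LOC`, `S_GLOB`). A certificate needs many apices or a large genus.

Proof. Let `S` be as in `S_LOC`, and `R = {v : MQ m // ∀ a ∈ A, ∀ k, φ a ≠ Nd.r v k ∧ φ a ≠ Nd.c v k}`; its
complement has at most `|A|` elements (map `a` to the `v` of `φ a`), so `|R| ≥ m² - |A|`. Let `ι : {a // a ∉ A} → V`
be injective and preserve adjacency (`IsContained`: a `Copy`, i.e. an injective homomorphism of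
`F.induce Aᶜ`). Define on `V`: `cls (ι a) = some (v, inl x)` if `φ a = r v x` and `v ∈ R`, `some (v, inr y)` if
`φ a = c v y` and `v ∈ R`, otherwise (also outside of the image of `ι`) `none`; `t' (ι a) (ι b) = t a b`, otherwise `0`;
`S' (ι a) = S a`. For `a` with `φ a = r v x`, `v ∈ R`, all `b` with `φ b = c v y` are outside of `A`, so the sum over the
class is `∑_{φ b = c v y} t a b = S a` by `S_LOC` (`r v x` and `c v y` are adjacent). Similarly for columns, and
`∑_{φ a = r v x} S a = 1` by `S_GLOB`. So `|R| ≤ 2 g` by `S_CORE`. -/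
def S_MAIN : Prop := ∀ (m p : ℕ) [NeZero m] (b : MQ m → ZMod 2) (W : Type) [Fintype W] [DecidableEq W]
  (F : SimpleGraph W) (A : Set W) (V : Type) [Fintype V] [DecidableEq V] (H : SimpleGraph V) (g : ℕ),
  GenusLE H g → (F.induce Aᶜ).IsContained H → (∃ φ t, Cert (MB m p) (tw b) F φ t) →
  m ^ 2 ≤ A.ncard + 2 * g

end Pool.Agent.Q225.GH
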