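import Pool.Agent.Q225.GH.Stm
import Pool.Agent.Y598.VT.FamWL
import Pool.Agent.TH658.Dg.TAct

set_option autoImplicit false

/-! # The Weisfeiler-Leman method does not distinguish the graphs -/

namespace Pool.Agent.Q225.GH

open Finset Pool.Agent.TH658.Dg Pool.Agent.H521R3.BI Pool.Agent.Q210.SP Pool.Agent.Y598.IM
  Pool.Agent.W185.SRG

variable {m p : ℕ}

/-- The vertices. -/
abbrev Vt (m p : ℕ) : Type := Σ u : Nd m p, ((MB m p).I u → ZMod 2)

/-- The translation of the fibre of `u` by `M`. -/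
def sh (M : ME m → ZMod 2) : (u : Nd m p) → (MB m p).I u → ZMod 2
  | Nd.q v => fun j => M (mport m v j)
  | Nd.d e _ => fun _ => M e
  | Nd.r _ _ => fun _ => 0
  | Nd.c _ _ => fun _ => 0
  | Nd.z _ => fun _ => 0

theorem sh_add (M M' : ME m → ZMod 2) (u : Nd m p) : sh (M + M') u = sh M u + sh M' u := by
  cases u <;> funext i <;> first | rfl | exact (add_zero (0 : ZMod 2)).symm

theorem sh_zero (u : Nd m p) : sh (0 : ME m → ZMod 2) u = 0 := by
  cases u <;> rfl

/-- The action of `M`. -/
def actF (M : ME m → ZMod 2) (x : Vt m p) : Vt m p := ⟨x.1, x.2 + sh M x.1⟩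

theorem actF_zero (x : Vt m p) : actF 0 x = x := by
  obtain ⟨u, s⟩ := x
  show (⟨u, s + sh 0 u⟩ : Vt m p) = ⟨u, s⟩
  rw [sh_zero, add_zero]

theorem actF_add (M M' : ME m → ZMod 2) (x : Vt m p) : actF (M + M') x = actF M (actF M' x) := by
  obtain ⟨u, s⟩ := x
  show (⟨u, s + sh (M + M') u⟩ : Vt m p) = ⟨u, s + sh M' u + sh M u⟩
  rw [sh_add, add_assoc, add_comm (sh M' u)]

theorem dbl (M : ME m → ZMod 2) : M + M = 0 := by
  funext e
  exact CharTwo.add_self_eq_zero (M e)

/-- The action as a permutation. -/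
def act (M : ME m → ZMod 2) : Vt m p ≃ Vt m p where
  toFun := actF M
  invFun := actF M
  left_inv x := by rw [← actF_add, dbl, actF_zero]
  right_inv x := by rw [← actF_add, dbl, actF_zero]

/-- The edges at a node. -/
def nlv : Nd m p → Finset (ME m)
  | Nd.q v => univ.image (mport m v)
  | Nd.d e _ => {e}
  | Nd.r _ _ => ∅
  | Nd.c _ _ => ∅
  | Nd.z _ => ∅

/-- The edges at a vertex. -/
def lv (x : Vt m p) : Finset (ME m) := nlv x.1

theorem nlv_card (u : Nd m p) : (nlv u).card ≤ 8 := by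
  cases u with
  | q v =>
    refine Finset.card_image_le.trans ?_
    rw [Finset.card_univ]
    rfl
  | d e b =>
    show ({e} : Finset (ME m)).card ≤ 8
    rw [Finset.card_singleton]
    omega
  | r v x => exact Nat.zero_le _
  | c v y => exact Nat.zero_le _
  | z i => exact Nat.zero_le _

/-- The vectors which vanish on `W`. -/
def NV (W : Finset (ME m)) : AddSubgroup (ME m → ZMod 2) where
  carrier := {M | ∀ w ∈ W, M w = 0}
  add_mem' := by
    intro M M' h h' w hw
    rw [Pi.add_apply, h w hw, h' w hw, add_zero]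
  zero_mem' := fun w _ => rfl
  neg_mem' := by
    intro M h w hw
    rw [Pi.neg_apply, h w hw, neg_zero]

theorem act_fix {M : ME m → ZMod 2} {x : Vt m p} (h : M ∈ NV (lv x)) : act M x = x := by
  obtain ⟨u, s⟩ := x
  have h0 : sh M u = 0 := by
    cases u with
    | q v =>
      funext j
      exact h (mport m v j) (Finset.mem_image_of_mem _ (Finset.mem_univ j))
    | d e b =>
      funext j
      exact h e (Finset.mem_singleton_self e)
    | r v x => rfl
    | c v y => rfl
    | z i => rfl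
  show (⟨u, s + sh M u⟩ : Vt m p) = ⟨u, s⟩
  rw [h0, add_zero]

theorem act_faithful {M : ME m → ZMod 2} {x : Vt m p} (h : act M x = x) : M ∈ NV (lv x) := by
  obtain ⟨u, s⟩ := x
  have h1 : (⟨u, s + sh M u⟩ : Vt m p) = ⟨u, s⟩ := h
  have h2 : s + sh M u = s := eq_of_heq (Sigma.mk.inj h1).2
  have h0 : sh M u = 0 := add_eq_left.1 h2
  cases u with
  | q v =>
    intro w hw
    obtain ⟨j, _, rfl⟩ := Finset.mem_image.1 hw
    exact congrFun h0 j
  | d e b =>
    intro w hw
    rw [Finset.mem_singleton.1 hw]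
    exact congrFun h0 ()
  | r v x => exact fun w hw => absurd hw (Finset.notMem_empty w)
  | c v y => exact fun w hw => absurd hw (Finset.notMem_empty w)
  | z i => exact fun w hw => absurd hw (Finset.notMem_empty w)

variable [NeZero m]

/-- The local flows with demand `b`. -/
def SolV (s : ℕ) (b : MQ m → ZMod 2) (W : Finset (ME m)) : Set (ME m → ZMod 2) :=
  {M | ∀ y : MQ m → ZMod 2, wt y ≤ s → (∀ e, e ∉ W → cob (msrc m) (mtgt m) y e = 0) →
    ∑ e, cob (msrc m) (mtgt m) y e * M e = ∑ v, y v * b v}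

theorem SolV_add {s : ℕ} {b b' : MQ m → ZMod 2} {W : Finset (ME m)} {M M' : ME m → ZMod 2}
    (h : M ∈ SolV s b W) (h' : M' ∈ SolV s b' W) : M + M' ∈ SolV s (b + b') W := by
  intro y h1 h2
  simp only [Pi.add_apply, mul_add]
  rw [Finset.sum_add_distrib, Finset.sum_add_distrib, h y h1 h2, h' y h1 h2]

theorem SolV_neg {s : ℕ} {b : MQ m → ZMod 2} {W : Finset (ME m)} {M : ME m → ZMod 2}
    (h : M ∈ SolV s b W) : -M ∈ SolV s (-b) W := by
  intro y h1 h2
  simp only [Pi.neg_apply, mul_neg]
  rw [Finset.sum_neg_distrib, Finset.sum_neg_distrib, h y h1 h2]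

/-- The homogeneous local flows. -/
def DV (s : ℕ) (W : Finset (ME m)) : AddSubgroup (ME m → ZMod 2) where
  carrier := SolV s 0 W
  add_mem' := by
    intro M M' h h'
    have := SolV_add h h'
    rwa [add_zero] at this
  zero_mem' := by
    intro y _ _
    simp
  neg_mem' := by
    intro M h
    have := SolV_neg h
    rwa [neg_zero] at this

theorem ev_add {U : Type} (B : Base U) (u w : U) (s s' : B.I u → ZMod 2) :
    B.ev u w (s + s') = B.ev u w s + B.ev u w s' := by
  unfold Base.ev
  rw [← Finset.sum_add_distrib]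
  exact Finset.sum_congr rfl fun i _ => mul_add _ _ _

/-- The change of the two sides of the equation along an edge of the base (one direction). -/
theorem ev_sh {b b' : MQ m → ZMod 2} {M : ME m → ZMod 2} (u w : Nd m p) (h : ndRel u w)
    (hM : ∀ v, u = Nd.q v → w = Nd.r v 0 → ∑ j, M (mport m v j) = b' v + b v) :
    (MB m p).ev u w (sh M u) + (MB m p).ev w u (sh M w) =
      (tw b u w + tw b w u) + (tw b' u w + tw b' w u) := by
  rcases u with v | ⟨e, c⟩ | ⟨v, x⟩ | ⟨v, y⟩ | i
  · rcases w with v' | ⟨e, c⟩ | ⟨v', x⟩ | ⟨v', y⟩ | i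
    · exact absurd h id
    · have h1 : (MB m p).ev (Nd.q v) (Nd.d e c) (sh M (Nd.q v)) = M e := by
        show ∑ j : Pt, (if j = (if c then Sum.inl e.1 else Sum.inr e.1) then (1 : ZMod 2) else 0) *
          M (mport m v j) = M e
        rw [Finset.sum_eq_single (if c then Sum.inl e.1 else Sum.inr e.1)]
        · rw [if_pos rfl, one_mul]
          cases c with
          | true =>
            have h2 : mtgt m e = v := h
            show M (e.1, (sg m e.1).symm v) = M e
            rw [← h2]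
            show M (e.1, (sg m e.1).symm (sg m e.1 e.2)) = M e
            rw [Equiv.symm_apply_apply]
          | false =>
            have h2 : msrc m e = v := h
            show M (e.1, v) = M e
            rw [← h2]
            rfl
        · intro j _ hj
          rw [if_neg hj, zero_mul]
        · intro h'
          exact absurd (Finset.mem_univ _) h'
      have h3 : (MB m p).ev (Nd.d e c) (Nd.q v) (sh M (Nd.d e c)) = M e := by
        show ∑ _j : Unit, (1 : ZMod 2) * M e = M e
        simp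
      rw [h1, h3, CharTwo.add_self_eq_zero]
      show (0 : ZMod 2) = (0 + 0) + (0 + 0)
      simp
    · have h1 : v = v' ∧ x = 0 := h
      obtain ⟨rfl, rfl⟩ := h1
      have h2 : (MB m p).ev (Nd.q v) (Nd.r v 0) (sh M (Nd.q v)) = ∑ j, M (mport m v j) := by
        show ∑ j : Pt, (1 : ZMod 2) * M (mport m v j) = _
        exact Finset.sum_congr rfl fun j _ => one_mul _
      have h3 : (MB m p).ev (Nd.r v 0) (Nd.q v) (sh M (Nd.r v 0)) = 0 := by
        show ∑ j : Fin 3, (1 : ZMod 2) * 0 = 0
        simp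
      rw [h2, h3, hM v rfl rfl]
      have h4 : tw (p := p) b (Nd.q v) (Nd.r v 0) = b v := if_pos ⟨rfl, rfl⟩
      have h5 : tw (p := p) b' (Nd.q v) (Nd.r v 0) = b' v := if_pos ⟨rfl, rfl⟩
      have h6 : tw (p := p) b (Nd.r v 0) (Nd.q v) = 0 := rfl
      have h7 : tw (p := p) b' (Nd.r v 0) (Nd.q v) = 0 := rfl
      rw [h4, h5, h6, h7]
      ring
    · exact absurd h id
    · exact absurd h id
  · rcases w with v' | ⟨e', c'⟩ | ⟨v', x⟩ | ⟨v', y⟩ | i
    · exact absurd h id
    · have h0 : e = e' ∧ c = false ∧ c' = true := h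
      obtain ⟨rfl, rfl, rfl⟩ := h0
      show (∑ _j : Unit, (1 : ZMod 2) * M e) + (∑ _j : Unit, (1 : ZMod 2) * M e) =
        (0 + 0) + (0 + 0)
      rw [CharTwo.add_self_eq_zero]
      simp
    · exact absurd h id
    · exact absurd h id
    · exact absurd h id
  · rcases w with v' | ⟨e', c'⟩ | ⟨v', x'⟩ | ⟨v', y⟩ | i
    · exact absurd h id
    · exact absurd h id
    · exact absurd h id
    · have h1 : (MB m p).ev (Nd.r v x) (Nd.c v' y) (sh M (Nd.r v x)) = 0 := by
        refine Finset.sum_eq_zero fun i _ => ?_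
        exact mul_zero _
      have h2 : (MB m p).ev (Nd.c v' y) (Nd.r v x) (sh M (Nd.c v' y)) = 0 := by
        refine Finset.sum_eq_zero fun i _ => ?_
        exact mul_zero _
      rw [h1, h2]
      show (0 : ZMod 2) + 0 = (0 + 0) + (0 + 0)
      simp
    · exact absurd h id
  · rcases w with v' | ⟨e', c'⟩ | ⟨v', x'⟩ | ⟨v', y'⟩ | i
    · exact absurd h id
    · exact absurd h id
    · exact absurd h id
    · exact absurd h id
    · exact absurd h id
  · rcases w with v' | ⟨e', c'⟩ | ⟨v', x'⟩ | ⟨v', y'⟩ | i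
    · exact absurd h id
    · exact absurd h id
    · exact absurd h id
    · exact absurd h id
    · exact absurd h id

theorem adj_act {b b' : MQ m → ZMod 2} {M : ME m → ZMod 2} (x y : Vt m p)
    (hM : ∀ v, (x.1 = Nd.q v ∨ y.1 = Nd.q v) → ∑ j, M (mport m v j) = b' v + b v) :
    (gr m p b).Adj x y ↔ (gr m p b').Adj (act M x) (act M y) := by
  obtain ⟨u, s⟩ := x
  obtain ⟨w, t⟩ := y
  show ((MB m p).G.Adj u w ∧ (MB m p).ev u w s + (MB m p).ev w u t = tw b u w + tw b w u) ↔
    ((MB m p).G.Adj u w ∧ (MB m p).ev u w (s + sh M u) + (MB m p).ev w u (t + sh M w) =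
      tw b' u w + tw b' w u)
  refine and_congr_right fun h => ?_
  have key : (MB m p).ev u w (sh M u) + (MB m p).ev w u (sh M w) =
      (tw b u w + tw b w u) + (tw b' u w + tw b' w u) := by
    rcases h with h | h
    · exact ev_sh u w h fun v h1 _ => hM v (Or.inl h1)
    · have h1 := ev_sh (b := b) (b' := b') (M := M) w u h fun v h1 _ => hM v (Or.inr h1)
      rw [add_comm, h1, add_comm (tw b w u), add_comm (tw b' w u)]
  rw [ev_add, ev_add]
  have h2 : ∀ a c β β' : ZMod 2, a + c = β + β' → ∀ k, (k = β ↔ k + (a + c) = β') := by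
    decide
  have h3 := h2 _ _ _ _ key ((MB m p).ev u w s + (MB m p).ev w u t)
  rw [h3]
  have h4 : (MB m p).ev u w s + (MB m p).ev w u t +
      ((MB m p).ev u w (sh M u) + (MB m p).ev w u (sh M w)) =
      (MB m p).ev u w s + (MB m p).ev u w (sh M u) +
        ((MB m p).ev w u t + (MB m p).ev w u (sh M w)) := by ring
  rw [h4]

/-- The family of the graphs with their local isomorphisms. -/
noncomputable def tFam (m p K : ℕ) [NeZero m] (hE : Expd (ZMod 2) (msrc m) (mtgt m) (1600 * K) K)
    (hK : 1 ≤ K) :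
    Fam (ME m → ZMod 2) (Finset (ME m)) (Vt m p) (MQ m → ZMod 2) where
  N := NV
  D := DV (1600 * K)
  Sol b b' W := SolV (1600 * K) (b' - b) W
  size W := W.card
  K := K
  N_anti W W' h M hM w hw := hM w (h hw)
  N_sup W W' M hM w hw := by
    rcases Finset.mem_union.1 hw with h | h
    · exact hM.1 w h
    · exact hM.2 w h
  N_bot := by
    rw [eq_top_iff]
    intro M _ w hw
    exact absurd hw (Finset.notMem_empty w)
  Sol_anti b b' W W' h M hM y h1 h2 := hM y h1 fun e he => h2 e fun he' => he (h he')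
  sol_D b W M := by
    show M ∈ SolV (1600 * K) (b - b) W ↔ M ∈ SolV (1600 * K) 0 W
    rw [sub_self]
  neg_mem b b' W M hM := by
    have := SolV_neg (show M ∈ SolV (1600 * K) (b' - b) W from hM)
    rwa [neg_sub] at this
  add_mem b b' b'' W M M' hM hM' := by
    have := SolV_add (show M ∈ SolV (1600 * K) (b' - b) W from hM)
      (show M' ∈ SolV (1600 * K) (b'' - b') W from hM')
    have h1 : b' - b + (b'' - b') = b'' - b := by abel
    rwa [h1] at this
  size_bot := Finset.card_empty
  size_mono W W' h := Finset.card_le_card h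
  size_sup W W' := Finset.card_union_le _ _
  bot_sol b b' := by
    refine ⟨0, ?_⟩
    intro y h1 h2
    rw [hE.ker y h1 fun e => h2 e (Finset.notMem_empty e)]
    simp
  extend b b' W W' hWW hW' M hM := by
    obtain ⟨M', hM', hag⟩ := hE.extend (b' - b) hWW hW' hM
    refine ⟨M', hM', fun w hw => ?_⟩
    rw [Pi.sub_apply, hag w hw, sub_self]
  act := act
  act_zero u := actF_zero u
  act_add M M' u := actF_add M M' u
  lv := lv
  lv_act M u := rfl
  fix M x hM := act_fix hM
  faithful M x hM := act_faithful hM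
  c := 8
  size_lv x := nlv_card x.1
  G b := (gr m p b).Adj
  G_inj b b' h := by
    funext v
    have h3 : (gr m p b).Adj ⟨Nd.q v, 0⟩ ⟨Nd.r v 0, 0⟩ = (gr m p b').Adj ⟨Nd.q v, 0⟩ ⟨Nd.r v 0, 0⟩ :=
      congrFun (congrFun h ⟨Nd.q v, 0⟩) ⟨Nd.r v 0, 0⟩
    have h4 : ∀ b : MQ m → ZMod 2,
        (gr m p b).Adj ⟨Nd.q v, 0⟩ ⟨Nd.r v 0, 0⟩ ↔ b v = 0 := by
      intro b
      have e1 : (MB m p).ev (Nd.q v) (Nd.r v 0) 0 = 0 :=
        Finset.sum_eq_zero fun i _ => mul_zero _
      have e2 : (MB m p).ev (Nd.r v 0) (Nd.q v) 0 = 0 :=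
        Finset.sum_eq_zero fun i _ => mul_zero _
      have e3 : tw (p := p) b (Nd.q v) (Nd.r v 0) = b v := if_pos ⟨rfl, rfl⟩
      have e4 : tw (p := p) b (Nd.r v 0) (Nd.q v) = 0 := rfl
      constructor
      · rintro ⟨_, h⟩
        have h' : (MB m p).ev (Nd.q v) (Nd.r v 0) 0 + (MB m p).ev (Nd.r v 0) (Nd.q v) 0 =
          tw (p := p) b (Nd.q v) (Nd.r v 0) + tw (p := p) b (Nd.r v 0) (Nd.q v) := h
        rw [e1, e2, e3, e4, add_zero, add_zero] at h'
        exact h'.symm
      · intro h
        refine ⟨Or.inl ⟨rfl, rfl⟩, ?_⟩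
        show (MB m p).ev (Nd.q v) (Nd.r v 0) 0 + (MB m p).ev (Nd.r v 0) (Nd.q v) 0 =
          tw (p := p) b (Nd.q v) (Nd.r v 0) + tw (p := p) b (Nd.r v 0) (Nd.q v)
        rw [e1, e2, e3, e4, h]
    have h5 : b v = 0 ↔ b' v = 0 := by rw [← h4, ← h4, h3]
    have h6 : ∀ a b : ZMod 2, (a = 0 ↔ b = 0) → a = b := by decide
    exact h6 _ _ h5
  adj b b' u w M hM := by
    refine adj_act u w fun v hv => ?_
    have h1 : univ.image (mport m v) ⊆ lv u ⊔ lv w := by
      rcases hv with hv | hv
      · refine fun e he => Finset.mem_union_left _ ?_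
        show e ∈ nlv u.1
        rw [hv]
        exact he
      · refine fun e he => Finset.mem_union_right _ ?_
        show e ∈ nlv w.1
        rw [hv]
        exact he
    have h2 := flowSys_node hE (by omega) (b' - b) (W := lv u ⊔ lv w) (M := M) hM v
      (fun e he => h1 (by
        obtain ⟨j, hj⟩ := (mport_inc m v e).1 he
        exact Finset.mem_image.2 ⟨j, Finset.mem_univ _, hj⟩))
    rw [port_sum, h2, Pi.sub_apply, sub_eq_add_neg, ZMod.neg_eq_self_mod_two]

theorem gr_wl {K j : ℕ} (hK : 6400 * K ≤ m ^ 2) (hj : 8 * (j + 1) ≤ K) (b b' : MQ m → ZMod 2) :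
    WLEquivalent j (gr m p b) (gr m p b') :=
  (tFam m p K (marg_expd (ZMod 2) m K hK) (by omega)).wl (gr m p) (fun _ => rfl) b b' j hj

end Pool.Agent.Q225.GH
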